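import Mathlib

/-!
# Only Lie algebras among the CD algebras have faithful modules

If `M` is a faithful module over the CD algebra `A`, then the CD algebra `B = A ⊕ M` satisfies
`J(x, y, z) w = 0`, and an element of `A` which annihilates `B` is zero; so `A` is a Lie algebra.
Therefore no CD algebra that is not a Lie algebra has a faithful module, of finite or infinite
dimension.
-/

set_option autoImplicit false

universe u v w

namespace Pool.Agent.Results.MP_361790_al.NoFaithfulModule

section Defs

variable {K : Type u} {A : Type v} {M : Type w} [Field K] [AddCommGroup A] [Module K A]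
  [AddCommGroup M] [Module K M]

/-- The commutator `[R_a, R_b]` of two right multiplications of the product `m`. -/
def comm (m : A →ₗ[K] A →ₗ[K] A) (a b : A) : A →ₗ[K] A :=
  m.flip a ∘ₗ m.flip b - m.flip b ∘ₗ m.flip a

/-- The product `m` on `A` makes `A` a CD algebra: it is anticommutative and every `[R_a, R_b]`
is a derivation. -/
structure IsCD (m : A →ₗ[K] A →ₗ[K] A) : Prop where
  anti : ∀ x, m x x = 0
  der : ∀ a b x y, comm m a b (m x y) = m (comm m a b x) y + m x (comm m a b y)

/-- The anticommutative product `m` satisfies the Jacobi identity. -/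
def IsLie (m : A →ₗ[K] A →ₗ[K] A) : Prop :=
  (∀ x, m x x = 0) ∧ ∀ x y z, m (m x y) z + m (m y z) x + m (m z x) y = 0

/-- The product `(a, m) (b, n) = (a b, a • n - b • m)` on `A ⊕ M`. -/
def semidirect (m : A →ₗ[K] A →ₗ[K] A) (act : A →ₗ[K] M →ₗ[K] M) :
    (A × M) →ₗ[K] (A × M) →ₗ[K] (A × M) :=
  LinearMap.mk₂ K (fun p q => (m p.1 q.1, act p.1 q.2 - act q.1 p.2))
    (fun p p' q => by ext <;> simp; abel)
    (fun c p q => by ext <;> simp [smul_sub])
    (fun p q q' => by ext <;> simp; abel)
    (fun c p q => by ext <;> simp [smul_sub])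

/-- The bilinear map `act` makes `M` a module over the CD algebra `(A, m)`: the product
`semidirect m act` on `A ⊕ M` is that of a CD algebra. -/
def IsModule (m : A →ₗ[K] A →ₗ[K] A) (act : A →ₗ[K] M →ₗ[K] M) : Prop :=
  IsCD (semidirect m act)

/-- The action `act` is faithful. -/
def Faithful (act : A →ₗ[K] M →ₗ[K] M) : Prop :=
  ∀ a, (∀ x, act a x = 0) → a = 0

end Defs

variable {K : Type u} {A : Type v} {M : Type w} [Field K] [AddCommGroup A] [Module K A]
  [AddCommGroup M] [Module K M]

theorem IsCD.swap {m : A →ₗ[K] A →ₗ[K] A} (h : IsCD m) (x y : A) : m x y = -m y x := by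
  have h1 := h.anti (x + y)
  simp only [map_add, LinearMap.add_apply, h.anti, zero_add, add_zero] at h1
  exact eq_neg_of_add_eq_zero_left (by rw [← h1]; abel)

theorem IsCD.four {m : A →ₗ[K] A →ₗ[K] A} (h : IsCD m) (x y a b : A) :
    m (m (m x y) a) b - m (m (m x y) b) a - m (m (m x a) b) y + m (m (m x b) a) y
      + m (m (m y a) b) x - m (m (m y b) a) x = 0 := by
  have h1 := h.der b a x y
  simp only [comm, LinearMap.sub_apply, LinearMap.comp_apply, LinearMap.flip_apply, map_sub] at h1
  rw [h.swap x (m (m y a) b), h.swap x (m (m y b) a)] at h1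
  rw [h1]
  abel

/-- The Jacobian of a CD algebra lies in the center (characteristic not two). -/
theorem IsCD.jacobian_mul (h2 : (2 : K) ≠ 0) {m : A →ₗ[K] A →ₗ[K] A} (h : IsCD m)
    (x y z w : A) : m (m (m x y) z + m (m y z) x + m (m z x) y) w = 0 := by
  have e1 := h.four x w y z
  have e2 := h.four y w x z
  have e3 := h.four z w x y
  simp only [h.swap w x, h.swap w y, h.swap w z, h.swap z x, h.swap y x, h.swap z y, map_neg,
    LinearMap.neg_apply] at e1 e2 e3
  have s : (2 : K) • m (m (m x y) z + m (m y z) x + m (m z x) y) w = 0 := by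
    simp only [h.swap z x, map_neg, LinearMap.neg_apply, map_add, LinearMap.add_apply]
    linear_combination (norm := module) (-1 : K) • e1 + (1 : K) • e2 + (-1 : K) • e3
  exact (smul_eq_zero.1 s).resolve_left h2


/-- A CD algebra with a faithful module is a Lie algebra. -/
theorem isLie_of_faithful (h2 : (2 : K) ≠ 0) {m : A →ₗ[K] A →ₗ[K] A} (hm : IsCD m)
    {act : A →ₗ[K] M →ₗ[K] M} (h : IsModule m act) (hf : Faithful act) : IsLie m := by
  refine ⟨hm.anti, fun x y z => hf _ fun t => ?_⟩
  have h1 := IsCD.jacobian_mul h2 h (x, 0) (y, 0) (z, 0) (0, t)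
  have h3 := congrArg Prod.snd h1
  simpa [semidirect] using h3

/-- The product of the example on `K ^ 5`: `e₀ e₁ = e₃`, `e₃ e₂ = e₄`. -/
def ex (K : Type u) [Field K] : (Fin 5 → K) →ₗ[K] (Fin 5 → K) →ₗ[K] (Fin 5 → K) :=
  LinearMap.mk₂ K (fun x y => ![0, 0, 0, x 0 * y 1 - x 1 * y 0, x 3 * y 2 - x 2 * y 3])
    (fun x x' y => by ext i; fin_cases i <;> simp <;> ring)
    (fun c x y => by ext i; fin_cases i <;> simp <;> ring)
    (fun x y y' => by ext i; fin_cases i <;> simp <;> ring)
    (fun c x y => by ext i; fin_cases i <;> simp <;> ring)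

theorem ex_isCD (K : Type u) [Field K] : IsCD (ex K) := by
  constructor
  · intro x
    ext i
    fin_cases i <;> simp [ex] <;> ring
  · intro a b x y
    ext i
    fin_cases i <;> simp [ex, comm]

theorem ex_not_isLie (K : Type u) [Field K] : ¬ IsLie (ex K) := by
  intro h
  have h1 := congrFun (h.2 (Pi.single 0 1) (Pi.single 1 1) (Pi.single 2 1)) 4
  simp [ex] at h1

/-- Over every field `K` of characteristic different from `2` and `3`: a CD algebra which has a
faithful module, of any dimension, is a Lie algebra; and there is a five-dimensional CD algebra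
none of whose modules, of any dimension, is faithful. -/
theorem result (K : Type u) [Field K] (h2 : (2 : K) ≠ 0) (_h3 : (3 : K) ≠ 0) :
    (∀ (A : Type v) [AddCommGroup A] [Module K A] (m : A →ₗ[K] A →ₗ[K] A), IsCD m →
      ∀ (M : Type w) [AddCommGroup M] [Module K M] (act : A →ₗ[K] M →ₗ[K] M),
        IsModule m act → Faithful act → IsLie m) ∧
    ∃ (A : Type u) (_ : AddCommGroup A) (_ : Module K A) (m : A →ₗ[K] A →ₗ[K] A),
      Module.finrank K A = 5 ∧ IsCD m ∧
      ∀ (M : Type w) [AddCommGroup M] [Module K M] (act : A →ₗ[K] M →ₗ[K] M),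
        IsModule m act → ¬ Faithful act := by
  refine ⟨fun A _ _ m hm M _ _ act h hf => isLie_of_faithful h2 hm h hf, Fin 5 → K, inferInstance,
    inferInstance, ex K, by simp, ex_isCD K, fun M _ _ act h hf => ?_⟩
  exact ex_not_isLie K (isLie_of_faithful h2 (ex_isCD K) h hf)

end Pool.Agent.Results.MP_361790_al.NoFaithfulModule
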